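import Pool.Agent.W169.HF.DefsD
import Pool.Agent.W186.LH.Sab

/-!
# Part TCZ: three circles with few zeros
-/

set_option autoImplicit false

namespace Pool.Agent.W948.HF

open Complex Filter Topology Metric Set
open Pool.Agent.W186.LH Pool.Agent.W169.HF

/-- transfer of orders (copied from `Pool.Agent.W186.LH.Bwz`) -/
lemma ord_tr' {G E : ℂ → ℂ} (hG : Differentiable ℂ G) (hne : ∃ u, G u ≠ 0) {a b : ℂ} (ha : a ≠ 0)
    (hE : Differentiable ℂ E) (hE0 : ∀ u, E u ≠ 0) (u0 : ℂ) :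
    analyticOrderNatAt (fun u => G (a * u + b) * E u) u0 = analyticOrderNatAt G (a * u0 + b) := by
  obtain ⟨h, hh, hh0, hGh⟩ := single hG hne (a * u0 + b)
  obtain ⟨n, hn⟩ : ∃ n : ℕ, n = analyticOrderNatAt G (a * u0 + b) := ⟨_, rfl⟩
  rw [← hn] at hGh ⊢
  have hc : Differentiable ℂ fun u : ℂ => a * u + b := by fun_prop
  refine ord_of (h := fun u => a ^ n * h (a * u + b) * E u) ?_ ?_ ?_ fun u => ?_
  · exact (hG.comp hc).mul hE
  · exact ((hh.comp hc).const_mul (a ^ n)).mul hE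
  · exact mul_ne_zero (mul_ne_zero (pow_ne_zero _ ha) hh0) (hE0 _)
  · rw [hGh]
    have : a * u + b - (a * u0 + b) = a * (u - u0) := by ring
    rw [this, mul_pow]
    ring

lemma re_im_ball {w : ℂ} {r : ℝ} (h : w ∈ closedBall (5 : ℂ) r) :
    5 - r ≤ w.re ∧ w.re ≤ 5 + r ∧ |w.im| ≤ r := by
  rw [mem_closedBall, dist_eq_norm] at h
  have h1 := (abs_re_le_norm (w - 5)).trans h
  have h2 := (abs_im_le_norm (w - 5)).trans h
  have e1 : (w - 5).re = w.re - 5 := by simp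
  have e2 : (w - 5).im = w.im := by simp
  rw [e1, abs_le] at h1
  rw [e2] at h2
  exact ⟨by linarith, by linarith, h2⟩

theorem tcz : S_TCZ := by
  intro A b ρ κ R1 hA hb1 hb2 hρ0 hρ1 hκ hR1
  obtain ⟨η0, hη⟩ : ∃ η0 : ℝ, η0 = min (ρ / 2) (1 / 4) := ⟨_, rfl⟩
  have hη0 : 0 < η0 := by rw [hη]; exact lt_min (by linarith) (by norm_num)
  have hη1 : η0 ≤ ρ / 2 := by rw [hη]; exact min_le_left _ _
  have hη2 : η0 ≤ 1 / 4 := by rw [hη]; exact min_le_right _ _
  obtain ⟨ε, hε, hsab⟩ := sabZ η0 κ (A + 1) hη0 hη2 hκ (by linarith)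
  obtain ⟨κ1, hκ1⟩ : ∃ κ1 : ℝ, κ1 = min ε (min (η0 / 2) κ) := ⟨_, rfl⟩
  have k0 : 0 < κ1 := by rw [hκ1]; exact lt_min hε (lt_min (by linarith) hκ)
  have k1 : κ1 ≤ ε := by rw [hκ1]; exact min_le_left _ _
  have k2 : κ1 ≤ η0 / 2 := by rw [hκ1]; exact (min_le_right _ _).trans (min_le_left _ _)
  have k3 : κ1 ≤ κ := by rw [hκ1]; exact (min_le_right _ _).trans (min_le_right _ _)
  refine ⟨κ1, R1 + 20, k0, by linarith, ?_⟩
  intro ℓ H F hℓ hH hF hup hlo hcnt u hu1 hu2 hu3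
  by_cases hbu : b ≤ u.re
  · refine (hlo u hbu (by linarith) (by linarith)).2.trans ?_
    apply mul_le_mul_of_nonneg_left _ hH.le
    apply Real.exp_le_exp.2
    have := mul_le_mul_of_nonneg_right k3 hℓ.le
    linarith
  push Not at hbu
  have hu3' := abs_le.1 hu3
  obtain ⟨v, hv⟩ : ∃ v : ℝ, v = u.im := ⟨_, rfl⟩
  obtain ⟨E, hE⟩ : ∃ E : ℂ → ℂ, E = fun w => cexp (-(2 * (ℓ : ℂ)) * w) * ((H⁻¹ : ℝ) : ℂ) :=
    ⟨_, rfl⟩
  have hEd : Differentiable ℂ E := by rw [hE]; fun_prop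
  have hE0 : ∀ w, E w ≠ 0 := by
    intro w
    rw [hE]
    refine mul_ne_zero (Complex.exp_ne_zero _) ?_
    rw [Complex.ofReal_ne_zero]
    positivity
  have hEn : ∀ w, ‖E w‖ = Real.exp (-(2 * ℓ * w.re)) * H⁻¹ := by
    intro w
    rw [hE]
    simp only [norm_mul, Complex.norm_exp, Complex.norm_real, norm_inv, Real.norm_eq_abs,
      abs_of_pos hH]
    congr 2
    simp
  obtain ⟨g, hg⟩ : ∃ g : ℂ → ℂ, g = fun w => F (2 * w + I * v) * E w := ⟨_, rfl⟩
  have hgd : Differentiable ℂ g := by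
    rw [hg]
    have hc : Differentiable ℂ fun w : ℂ => 2 * w + I * (v : ℂ) := by fun_prop
    exact (hF.comp hc).mul hEd
  have hre : ∀ w : ℂ, (2 * w + I * (v : ℂ)).re = 2 * w.re := by
    intro w; simp
  have him : ∀ w : ℂ, (2 * w + I * (v : ℂ)).im = 2 * w.im + v := by
    intro w; simp
  have hgn : ∀ w, ‖g w‖ = ‖F (2 * w + I * v)‖ * (Real.exp (-(2 * ℓ * w.re)) * H⁻¹) := by
    intro w
    rw [hg]
    simp only [norm_mul, hEn]
  have hgle : ∀ w (X : ℝ), ‖F (2 * w + I * v)‖ ≤ H * Real.exp (ℓ * (2 * w.re) + X) →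
      ‖g w‖ ≤ Real.exp X := by
    intro w X h
    rw [hgn]
    calc ‖F (2 * w + I * v)‖ * (Real.exp (-(2 * ℓ * w.re)) * H⁻¹)
        ≤ (H * Real.exp (ℓ * (2 * w.re) + X)) * (Real.exp (-(2 * ℓ * w.re)) * H⁻¹) :=
          mul_le_mul_of_nonneg_right h (by positivity)
      _ = (H * H⁻¹) * (Real.exp (ℓ * (2 * w.re) + X) * Real.exp (-(2 * ℓ * w.re))) := by ring
      _ = Real.exp X := by
        rw [mul_inv_cancel₀ hH.ne', ← Real.exp_add, one_mul]
        congr 1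
        ring
  have hgge : ∀ w (X : ℝ), H * Real.exp (ℓ * (2 * w.re) + X) ≤ ‖F (2 * w + I * v)‖ →
      Real.exp X ≤ ‖g w‖ := by
    intro w X h
    rw [hgn]
    calc Real.exp X = (H * H⁻¹) * (Real.exp (ℓ * (2 * w.re) + X) * Real.exp (-(2 * ℓ * w.re))) := by
          rw [mul_inv_cancel₀ hH.ne', ← Real.exp_add, one_mul]
          congr 1
          ring
      _ = (H * Real.exp (ℓ * (2 * w.re) + X)) * (Real.exp (-(2 * ℓ * w.re)) * H⁻¹) := by ring
      _ ≤ ‖F (2 * w + I * v)‖ * (Real.exp (-(2 * ℓ * w.re)) * H⁻¹) :=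
          mul_le_mul_of_nonneg_right h (by positivity)
  have himb : ∀ w : ℂ, |w.im| ≤ 5 → |(2 * w + I * (v : ℂ)).im| ≤ R1 + 20 := by
    intro w hw
    rw [him, abs_le]
    rw [abs_le] at hw
    rw [hv]
    constructor <;> linarith [hw.1, hw.2, hu3'.1, hu3'.2]
  have H1 : ∀ z ∈ closedBall (5 : ℂ) 5, ‖g z‖ ≤ Real.exp ((A + 1) * ℓ) := by
    intro z hz
    obtain ⟨a1, a2, a3⟩ := re_im_ball hz
    apply hgle
    refine (hup _ ?_ ?_ (himb z a3)).trans ?_
    · rw [hre]; linarith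
    · rw [hre]; linarith
    · rw [hre]
      apply mul_le_mul_of_nonneg_left _ hH.le
      apply Real.exp_le_exp.2
      nlinarith
  have H2 : ∀ z ∈ closedBall (5 : ℂ) (7 / 2),
      Real.exp (-(ε * ℓ)) ≤ ‖g z‖ ∧ ‖g z‖ ≤ Real.exp (ε * ℓ) := by
    intro z hz
    obtain ⟨a1, a2, a3⟩ := re_im_ball hz
    have h3 := hlo (2 * z + I * v) (by rw [hre]; linarith) (by rw [hre]; linarith)
      (himb z (by linarith))
    rw [hre] at h3
    have h4 := mul_le_mul_of_nonneg_right k1 hℓ.le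
    constructor
    · apply hgge
      refine le_trans ?_ h3.1
      apply mul_le_mul_of_nonneg_left _ hH.le
      apply Real.exp_le_exp.2
      linarith
    · apply hgle
      refine h3.2.trans ?_
      apply mul_le_mul_of_nonneg_left _ hH.le
      apply Real.exp_le_exp.2
      linarith
  have hFne : ∃ u, F u ≠ 0 := by
    refine ⟨2 * 5 + I * v, ?_⟩
    have := (H2 5 (mem_closedBall_self (by norm_num))).1
    have h5 : g 5 ≠ 0 := by
      rw [← norm_pos_iff]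
      exact lt_of_lt_of_le (Real.exp_pos _) this
    rw [hg] at h5
    exact left_ne_zero_of_mul h5
  have H3 : ∀ S : Finset ℂ, (∀ z ∈ S, g z = 0 ∧ z ∈ closedBall (5 : ℂ) (5 - η0 / 4)) →
      ∑ z ∈ S, (analyticOrderNatAt g z : ℝ) ≤ ε * ℓ := by
    classical
    intro S hS
    have hord : ∀ z, analyticOrderNatAt g z = analyticOrderNatAt F (2 * z + I * v) := by
      intro z
      rw [hg]
      exact ord_tr' hF hFne two_ne_zero hEd hE0 z
    have hinj : Set.InjOn (fun z : ℂ => 2 * z + I * (v : ℂ)) (S : Set ℂ) := by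
      intro x _ y _ hxy
      have h6 : 2 * x + I * (v : ℂ) = 2 * y + I * (v : ℂ) := hxy
      have h7 : (2 : ℂ) * x = 2 * y := add_right_cancel h6
      exact mul_left_cancel₀ two_ne_zero h7
    have h8 := hcnt (S.image fun z : ℂ => 2 * z + I * (v : ℂ)) (by
      intro z hz
      rw [Finset.mem_image] at hz
      obtain ⟨w, hw, rfl⟩ := hz
      obtain ⟨h9, h10⟩ := hS w hw
      obtain ⟨a1, a2, a3⟩ := re_im_ball h10
      constructor
      · rw [hg] at h9
        rcases mul_eq_zero.1 h9 with h | h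
        · exact h
        · exact absurd h (hE0 w)
      · refine ⟨?_, ?_, ?_⟩
        · rw [hre]; linarith
        · rw [hre]; linarith
        · exact himb w (by linarith))
    rw [Finset.sum_image hinj] at h8
    have h11 : ∑ z ∈ S, (analyticOrderNatAt g z : ℝ) =
        ∑ z ∈ S, (analyticOrderNatAt F (2 * z + I * v) : ℝ) :=
      Finset.sum_congr rfl fun z _ => by rw [hord]
    rw [h11]
    exact h8.trans (mul_le_mul_of_nonneg_right k1 hℓ.le)
  have hw : ((u.re / 2 : ℝ) : ℂ) ∈ closedBall (5 : ℂ) (5 - η0) := by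
    rw [mem_closedBall, dist_eq_norm]
    have e5 : ((u.re / 2 : ℝ) : ℂ) - 5 = ((u.re / 2 - 5 : ℝ) : ℂ) := by push_cast; ring
    rw [e5, Complex.norm_real, Real.norm_eq_abs, abs_le]
    constructor <;> linarith
  have hfin := hsab ℓ g hℓ hgd H1 H2 H3 _ hw
  have e6 : (2 : ℂ) * ((u.re / 2 : ℝ) : ℂ) + I * (v : ℂ) = u := by
    apply Complex.ext
    · rw [hre, Complex.ofReal_re]; ring
    · rw [him, Complex.ofReal_im, hv]; ring
  rw [hgn, e6, Complex.ofReal_re] at hfin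
  have h12 : ‖F u‖ = (‖F u‖ * (Real.exp (-(2 * ℓ * (u.re / 2))) * H⁻¹)) *
      (H * Real.exp (ℓ * u.re)) := by
    have : Real.exp (-(2 * ℓ * (u.re / 2))) * Real.exp (ℓ * u.re) = 1 := by
      rw [← Real.exp_add]
      have : -(2 * ℓ * (u.re / 2)) + ℓ * u.re = 0 := by ring
      rw [this, Real.exp_zero]
    calc ‖F u‖ = ‖F u‖ * (Real.exp (-(2 * ℓ * (u.re / 2))) * Real.exp (ℓ * u.re)) * (H⁻¹ * H) := by
          rw [this, inv_mul_cancel₀ hH.ne']; ring
      _ = _ := by ring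
  rw [h12]
  calc (‖F u‖ * (Real.exp (-(2 * ℓ * (u.re / 2))) * H⁻¹)) * (H * Real.exp (ℓ * u.re))
      ≤ Real.exp (κ * ℓ) * (H * Real.exp (ℓ * u.re)) :=
        mul_le_mul_of_nonneg_right hfin (by positivity)
    _ = H * (Real.exp (ℓ * u.re) * Real.exp (κ * ℓ)) := by ring
    _ = H * Real.exp (ℓ * u.re + κ * ℓ) := by rw [← Real.exp_add]

end Pool.Agent.W948.HF
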